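import Mathlib

/-!
# C-principality does not imply closure under the transformation T

The family of regular languages is `{agsm⁻¹}`-principal and `C`-principal, but it is not closed
under `T`.
-/

namespace Pool.Agent.Results.MP_c9c291_lc.RegularNotClosed

/-- A family of languages: for every alphabet a set of languages over it (only finite alphabets
are used). -/
abbrev Family := (X : Type) → Set (Language X)

/-- An agsm with input alphabet `X` and output alphabet `Y`. -/
structure Agsm (X Y : Type) where
  /-- states -/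
  Q : Type
  finQ : Finite Q
  /-- initial state -/
  q0 : Q
  /-- final states -/
  F : Set Q
  /-- transition map -/
  t : Q → X → Q
  /-- output map -/
  h : Q → X → List Y

/-- transition map on words -/
def Agsm.tw {X Y : Type} (g : Agsm X Y) : g.Q → List X → g.Q
  | q, [] => q
  | q, x :: w => g.tw (g.t q x) w

/-- output map on words -/
def Agsm.hw {X Y : Type} (g : Agsm X Y) : g.Q → List X → List Y
  | _, [] => []
  | q, x :: w => g.h q x ++ g.hw (g.t q x) w

/-- inverse image under an agsm -/
def Agsm.inv {X Y : Type} (g : Agsm X Y) (M : Language Y) : Language X :=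
  {w | g.tw g.q0 w ∈ g.F ∧ g.hw g.q0 w ∈ M}

/-- inverse image under the homomorphism given by the images of the letters -/
def invHom {X Y : Type} (h : X → List Y) (M : Language Y) : Language X :=
  {w | w.flatMap h ∈ M}

/-- obtained from `L0` by finitely many operations `agsm⁻¹` -/
inductive ObtG {X0 : Type} (L0 : Language X0) : (X : Type) → Language X → Prop
  | base : ObtG L0 X0 L0
  | inv (X Y : Type) (M : Language Y) (g : Agsm X Y) : Finite X → Finite Y → ObtG L0 Y M →
      ObtG L0 X (g.inv M)

/-- obtained from `L0` by finitely many operations of `C` -/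
inductive ObtC {X0 : Type} (L0 : Language X0) : (X : Type) → Language X → Prop
  | base : ObtC L0 X0 L0
  | hom (X Y : Type) (M : Language Y) (h : X → List Y) : Finite X → Finite Y → ObtC L0 Y M →
      ObtC L0 X (invHom h M)
  | inter (X : Type) (M R : Language X) : R.IsRegular → ObtC L0 X M → ObtC L0 X (M ⊓ R)

/-- `{agsm⁻¹}`-principal families -/
def GPrincipal (L : Family) : Prop :=
  (∀ (X Y : Type) [Finite X] [Finite Y] (g : Agsm X Y), ∀ M ∈ L Y, g.inv M ∈ L X) ∧
  ∃ (X0 : Type) (_ : Finite X0), ∃ L0 ∈ L X0, ∀ (X : Type) [Finite X], ∀ M ∈ L X, ObtG L0 X M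

/-- `C`-principal families -/
def CPrincipal (L : Family) : Prop :=
  (∀ (X Y : Type) [Finite X] [Finite Y] (h : X → List Y), ∀ M ∈ L Y, invHom h M ∈ L X) ∧
  (∀ (X : Type) [Finite X] (R : Language X), R.IsRegular → ∀ M ∈ L X, M ⊓ R ∈ L X) ∧
  ∃ (X0 : Type) (_ : Finite X0), ∃ L0 ∈ L X0, ∀ (X : Type) [Finite X], ∀ M ∈ L X, ObtC L0 X M

/-- the new letters `y`, `ȳ`, `z` -/
inductive NL
  | y | yb | z
  deriving DecidableEq

/-- the nonterminals of the grammar of `A` -/
inductive NT
  | v0 | v1 | v2 | v3

open NL NT

/-- words generated from the nonterminals -/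
inductive Gen (X : Type) : NT → List (X ⊕ NL) → Prop
  | r01 (w) : Gen X v1 w → Gen X v0 w
  | r0e : Gen X v0 []
  | r1a (w) : Gen X v2 w → Gen X v1 (Sum.inr y :: (w ++ [Sum.inr yb]))
  | r1b (w) : Gen X v3 w → Gen X v1 (w ++ [Sum.inr z])
  | r1c : Gen X v1 [Sum.inr z]
  | r2a (w) (x : X ⊕ NL) : x ≠ Sum.inr yb → x ≠ Sum.inr z → Gen X v2 w → Gen X v2 (w ++ [x])
  | r2b (w) : Gen X v1 w → Gen X v2 w
  | r3a (w) (x : X ⊕ NL) : x ≠ Sum.inr z → Gen X v3 w → Gen X v3 (w ++ [x])
  | r3b : Gen X v3 [Sum.inr yb]

/-- the language `A` -/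
def A (X : Type) : Language (X ⊕ NL) := {w | Gen X v0 w}

/-- the language `(ȳ X* y⁺)*` -/
inductive BS (X : Type) : List (X ⊕ NL) → Prop
  | nil : BS X []
  | cons (u : List X) (k : ℕ) (w : List (X ⊕ NL)) : BS X w →
      BS X (Sum.inr yb :: (u.map Sum.inl ++ List.replicate (k + 1) (Sum.inr y) ++ w))

/-- the language `B = y + (ȳ X* y⁺)*` -/
def B (X : Type) : Language (X ⊕ NL) := {w | w = [Sum.inr y] ∨ BS X w}

/-- `Mid u m`: `u = f₁ ⋯ fₙ` with `n ≥ 1` and `m ∈ f₁ A f₂ A ⋯ A fₙ` -/
inductive Mid (X : Type) : List X → List (X ⊕ NL) → Prop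
  | one (f : X) : Mid X [f] [Sum.inl f]
  | more (f g : X) (u : List X) (a m : List (X ⊕ NL)) : a ∈ A X → Mid X (g :: u) m →
      Mid X (f :: g :: u) (Sum.inl f :: (a ++ m))

/-- the transformation `T` -/
def T {X : Type} (L : Language X) : Language (X ⊕ NL) :=
  {w | ∃ u ∈ L, ∃ m, Mid X u m ∧ ∃ b ∈ B X, w = Sum.inr z :: Sum.inr yb :: (m ++ b)}

/-- the family of regular languages -/
def Reg : Family := fun _ => {L | L.IsRegular}

theorem reg_agsm {X Y : Type} (g : Agsm X Y) (M : Language Y) (hM : M.IsRegular) :
    (g.inv M).IsRegular := by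
  obtain ⟨σ, hσ, D, rfl⟩ := hM
  have := g.finQ
  have : Fintype g.Q := Fintype.ofFinite _
  refine ⟨g.Q × σ, inferInstance,
    { step := fun p x => (g.t p.1 x, D.evalFrom p.2 (g.h p.1 x))
      start := (g.q0, D.start)
      accept := {p | p.1 ∈ g.F ∧ p.2 ∈ D.accept} }, ?_⟩
  have key : ∀ (w : List X) (q : g.Q) (s : σ), DFA.evalFrom
      { step := fun p x => (g.t p.1 x, D.evalFrom p.2 (g.h p.1 x))
        start := (g.q0, D.start)
        accept := {p : g.Q × σ | p.1 ∈ g.F ∧ p.2 ∈ D.accept} } (q, s) w =
      (g.tw q w, D.evalFrom s (g.hw q w)) := by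
    intro w
    induction w with
    | nil => intro q s; rfl
    | cons x w ih =>
      intro q s
      rw [DFA.evalFrom_cons, ih]
      simp only [Agsm.tw, Agsm.hw, DFA.evalFrom_of_append]
  ext w
  rw [DFA.mem_accepts]
  unfold DFA.eval
  rw [key]
  rfl

/-- one-state agsm of a homomorphism -/
def homAgsm {X Y : Type} (h : X → List Y) : Agsm X Y where
  Q := Unit
  finQ := inferInstance
  q0 := ()
  F := Set.univ
  t _ _ := ()
  h _ x := h x

theorem homAgsm_inv {X Y : Type} (h : X → List Y) (M : Language Y) :
    (homAgsm h).inv M = invHom h M := by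
  have key : ∀ (w : List X) (q : Unit), (homAgsm h).hw q w = w.flatMap h := by
    intro w
    induction w with
    | nil => intro q; rfl
    | cons x w ih =>
      intro q
      rw [List.flatMap_cons, ← ih ()]
      rfl
  ext w
  constructor
  · rintro ⟨-, h2⟩
    have : (homAgsm h).hw () w ∈ M := h2
    rw [key] at this
    exact this
  · intro h2
    refine ⟨Set.mem_univ _, ?_⟩
    change (homAgsm h).hw () w ∈ M
    rw [key]
    exact h2

theorem reg_top : (⊤ : Language Unit).IsRegular :=
  ⟨Unit, inferInstance, { step := fun _ _ => (), start := (), accept := Set.univ }, by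
    ext w
    rw [DFA.mem_accepts]
    exact ⟨fun _ => trivial, fun _ => Set.mem_univ _⟩⟩

theorem gprincipal : GPrincipal Reg := by
  refine ⟨fun X Y _ _ g M hM => reg_agsm g M hM, Unit, inferInstance, ⊤, reg_top, ?_⟩
  intro X _ M hM
  obtain ⟨σ, hσ, D, rfl⟩ := hM
  let g : Agsm X Unit :=
    { Q := σ, finQ := inferInstance, q0 := D.start, F := D.accept, t := D.step, h := fun _ _ => [] }
  have hg : g.inv ⊤ = D.accepts := by
    have key : ∀ (w : List X) (q : σ), g.tw q w = D.evalFrom q w := by
      intro w
      induction w with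
      | nil => intro q; rfl
      | cons x w ih =>
        intro q
        rw [DFA.evalFrom_cons, ← ih]
        rfl
    ext w
    rw [DFA.mem_accepts]
    constructor
    · rintro ⟨h1, -⟩
      have h3 : g.tw D.start w ∈ D.accept := h1
      rw [key] at h3
      exact h3
    · intro h1
      refine ⟨?_, trivial⟩
      change g.tw D.start w ∈ D.accept
      rw [key]
      exact h1
  rw [← hg]
  exact ObtG.inv X Unit ⊤ g inferInstance inferInstance ObtG.base

theorem cprincipal : CPrincipal Reg := by
  refine ⟨?_, ?_, Unit, inferInstance, ⊤, reg_top, ?_⟩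
  · intro X Y _ _ h M hM
    rw [← homAgsm_inv]
    exact reg_agsm _ M hM
  · intro X _ R hR M hM
    exact Language.IsRegular.inf hM hR
  · intro X _ M hM
    have h1 : M = invHom (fun _ : X => ([] : List Unit)) ⊤ ⊓ M := by
      ext w
      constructor
      · intro h
        exact ⟨trivial, h⟩
      · rintro ⟨-, h⟩
        exact h
    rw [h1]
    exact ObtC.inter X _ M hM (ObtC.hom X Unit ⊤ _ inferInstance inferInstance ObtC.base)

/-- two-letter words over a one-letter alphabet -/
def L2 : Language Unit := {u | u.length = 2}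

theorem reg_L2 : L2.IsRegular := by
  refine ⟨Fin 4, inferInstance,
    { step := fun i _ => if i.1 < 3 then ⟨(i.1 + 1) % 4, Nat.mod_lt _ (by norm_num)⟩ else 3
      start := 0
      accept := {2} }, ?_⟩
  have key : ∀ (w : List Unit) (i : Fin 4), ((DFA.evalFrom
      { step := fun i _ => if i.1 < 3 then ⟨(i.1 + 1) % 4, Nat.mod_lt _ (by norm_num)⟩ else 3
        start := 0
        accept := {2} } i w : Fin 4) : ℕ) = min (i.1 + w.length) 3 := by
    intro w
    induction w with
    | nil => intro i; simp; omega
    | cons x w ih =>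
      intro i
      rw [DFA.evalFrom_cons, ih]
      simp only [List.length_cons]
      split_ifs with h
      · simp only
        omega
      · have := i.2
        have h3 : ((3 : Fin 4) : ℕ) = 3 := rfl
        omega
  ext w
  rw [DFA.mem_accepts]
  unfold DFA.eval
  constructor
  · intro h
    have h1 : _ = (2 : Fin 4) := h
    have h2 := key w 0
    rw [h1] at h2
    have h3 : ((2 : Fin 4) : ℕ) = 2 := rfl
    have h4 : ((0 : Fin 4) : ℕ) = 0 := rfl
    change w.length = 2
    omega
  · intro h
    have h1 : w.length = 2 := h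
    have h2 := key w 0
    have h4 : ((0 : Fin 4) : ℕ) = 0 := rfl
    change _ = (2 : Fin 4)
    apply Fin.ext
    have h3 : ((2 : Fin 4) : ℕ) = 2 := rfl
    rw [h3]
    refine h2.trans ?_
    omega

/-- the word `y^m z ȳ^n` -/
def W (m n : ℕ) : List (Unit ⊕ NL) :=
  List.replicate m (Sum.inr y) ++ Sum.inr z :: List.replicate n (Sum.inr yb)

theorem W_succ (m n : ℕ) : W (m + 1) n = Sum.inr y :: W m n := rfl

theorem W_last (m n : ℕ) : W m (n + 1) = W m n ++ [Sum.inr yb] := by
  simp [W, List.replicate_succ']

theorem gen_W (m n : ℕ) : n = m → Gen Unit v1 (W m n) := by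
  rintro rfl
  induction n with
  | zero => exact Gen.r1c
  | succ n ih =>
    rw [W_succ, W_last]
    exact Gen.r1a _ (Gen.r2b _ ih)

/-- invariant of the grammar -/
def Inv : NT → List (Unit ⊕ NL) → Prop
  | v0, _ => True
  | v1, w => ∀ m n, w = W m n → m = n
  | v2, w => ∀ m n, w = W m n → m = n
  | v3, w => ∃ t, w = Sum.inr yb :: t

theorem inv_gen (a : NT) (w : List (Unit ⊕ NL)) (h : Gen Unit a w) : Inv a w := by
  induction h with
  | r01 w h ih => trivial
  | r0e => trivial
  | r1a w h ih =>
    intro m n hw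
    cases m with
    | zero => simp [W] at hw
    | succ m =>
      rw [W_succ, List.cons.injEq] at hw
      obtain ⟨-, hw⟩ := hw
      cases n with
      | zero =>
        exfalso
        have h1 := congrArg List.getLast? hw
        simp [W] at h1
      | succ n =>
        rw [W_last] at hw
        have h1 := List.append_cancel_right hw
        have h2 := ih m n h1
        omega
  | r1b w h ih =>
    obtain ⟨t, rfl⟩ := ih
    intro m n hw
    exfalso
    cases m with
    | zero => simp [W] at hw
    | succ m => simp [W_succ] at hw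
  | r1c =>
    intro m n hw
    cases m with
    | zero =>
      cases n with
      | zero => rfl
      | succ n => simp [W, List.replicate_succ] at hw
    | succ m => simp [W_succ] at hw
  | r2a w x h1 h2 h ih =>
    intro m n hw
    exfalso
    cases n with
    | zero =>
      have h3 := congrArg List.getLast? hw
      simp [W] at h3
      exact h2 h3
    | succ n =>
      rw [W_last] at hw
      have h3 := congrArg List.getLast? hw
      simp at h3
      exact h1 h3
  | r2b w h ih => exact ih
  | r3a w x h1 h ih =>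
    obtain ⟨t, rfl⟩ := ih
    exact ⟨t ++ [x], rfl⟩
  | r3b => exact ⟨[], rfl⟩

/-- test words -/
def tw (m n : ℕ) : List (Unit ⊕ NL) :=
  (Sum.inr z :: Sum.inr yb :: Sum.inl () :: List.replicate m (Sum.inr y)) ++
    (Sum.inr z :: List.replicate n (Sum.inr yb) ++ [Sum.inl ()])

theorem tw_eq (m n : ℕ) : tw m n =
    Sum.inr z :: Sum.inr yb :: (Sum.inl () :: (W m n ++ [Sum.inl ()])) := by
  simp [tw, W]

theorem tw_mem (n : ℕ) : tw n n ∈ T L2 := by
  refine ⟨[(), ()], rfl, Sum.inl () :: (W n n ++ [Sum.inl ()]),
    Mid.more () () [] (W n n) [Sum.inl ()] (Gen.r01 _ (gen_W n n rfl)) (Mid.one ()), [],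
    Or.inr BS.nil, ?_⟩
  rw [tw_eq, List.append_nil]

/-- is the letter an old letter -/
def isF : Unit ⊕ NL → Bool
  | Sum.inl _ => true
  | Sum.inr _ => false

theorem count_W (m n : ℕ) : (W m n).countP isF = 0 := by
  rw [List.countP_eq_zero]
  intro a ha
  simp only [W, List.mem_append, List.mem_replicate, List.mem_cons] at ha
  rcases ha with ⟨-, rfl⟩ | rfl | ⟨-, rfl⟩ <;> simp [isF]

theorem gen0 (w : List (Unit ⊕ NL)) (h : Gen Unit v0 w) : w = [] ∨ Gen Unit v1 w := by
  cases h with
  | r01 _ h => exact Or.inr h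
  | r0e => exact Or.inl rfl

theorem tw_not_mem (m n : ℕ) (h : tw m n ∈ T L2) : m = n := by
  obtain ⟨u, hu, mm, hm, b, hb, he⟩ := h
  have hu2 : u.length = 2 := hu
  rw [tw_eq, List.cons.injEq, List.cons.injEq] at he
  obtain ⟨-, -, he⟩ := he
  cases hm with
  | one f => simp at hu2
  | more f g u a m' ha hm' =>
    cases hm' with
    | more f' g' u' a' m'' ha' hm'' => simp at hu2
    | one f' =>
      rw [List.cons_append, List.cons.injEq] at he
      obtain ⟨-, he⟩ := he
      have hc := congrArg (List.countP isF) he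
      simp only [List.countP_append, count_W] at hc
      have h1 : List.countP isF [Sum.inl g] = 1 := rfl
      have h2 : List.countP isF [Sum.inl ()] = 1 := rfl
      have hb0 : List.countP isF b = 0 := by
        rw [h1] at hc
        have hc' : 0 + 1 = List.countP isF a + 1 + List.countP isF b := hc
        omega
      rw [List.countP_eq_zero] at hb0
      rcases List.eq_nil_or_concat b with rfl | ⟨b', x, rfl⟩
      · rw [List.append_nil] at he
        have h3 := List.append_cancel_right he
        have ha1 : Gen Unit v0 a := ha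
        rw [← h3] at ha1
        rcases gen0 _ ha1 with h4 | h4
        · simp [W] at h4
        · exact inv_gen v1 _ h4 m n rfl
      · exfalso
        have he' : W m n ++ [Sum.inl ()] = (a ++ [Sum.inl g] ++ b') ++ [x] := by
          rw [he, List.concat_eq_append]
          simp only [List.append_assoc]
        have h3 : [Sum.inl ()] = [x] := (List.append_inj' he' rfl).2
        have h4 := hb0 x (by simp)
        rw [List.cons.injEq] at h3
        rw [← h3.1] at h4
        exact h4 rfl

theorem not_closed : ¬ (T L2).IsRegular := by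
  rintro ⟨σ, hσ, D, hD⟩
  obtain ⟨m, n, hne, hmn⟩ := Finite.exists_ne_map_eq_of_infinite
    (fun n : ℕ => D.eval (Sum.inr z :: Sum.inr yb :: Sum.inl () :: List.replicate n (Sum.inr y)))
  apply hne
  apply tw_not_mem
  rw [← hD, DFA.mem_accepts]
  have h1 : D.eval (tw n n) ∈ D.accept := by
    rw [← DFA.mem_accepts, hD]
    exact tw_mem n
  unfold DFA.eval tw at *
  rw [DFA.evalFrom_of_append] at *
  have hmn' : D.evalFrom D.start (Sum.inr z :: Sum.inr yb :: Sum.inl () ::
      List.replicate m (Sum.inr y)) = D.evalFrom D.start (Sum.inr z :: Sum.inr yb ::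
      Sum.inl () :: List.replicate n (Sum.inr y)) := hmn
  rw [hmn']
  exact h1

/-- closed under `T` -/
def ClosedT (L : Family) : Prop := ∀ (X : Type) [Finite X], ∀ M ∈ L X, T M ∈ L (X ⊕ NL)

/-- The family of regular languages is `{agsm⁻¹}`-principal and `C`-principal and is not closed
under `T`; so the equivalence fails. -/
theorem result : (GPrincipal Reg ∧ CPrincipal Reg ∧ ¬ ClosedT Reg) ∧
    ¬ ∀ L : Family, GPrincipal L → (CPrincipal L ↔ ClosedT L) := by
  have h : ¬ ClosedT Reg := fun h => not_closed (h Unit L2 reg_L2)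
  exact ⟨⟨gprincipal, cprincipal, h⟩, fun hh => h ((hh Reg gprincipal).1 cprincipal)⟩

end Pool.Agent.Results.MP_c9c291_lc.RegularNotClosed
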